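import Pool.Agent.H8.TD.Targets
import Pool.Agent.H18.HIT.Basic

/-!
Algebraic relations along an orbit: relations with coefficients in a number field and without
common factor.
-/

set_option autoImplicit false

open MvPolynomial
open Pool.Agent.H12.ZD (pmap v O Res DenseOrbit NoInv)
open Pool.Agent.H18.HIT
open Pool.Agent.H8.ZA (HFam Const NA sz)
open Pool.Agent.H8.TD

namespace Pool.Agent.H74.TD

/-- the value of a polynomial in two variables -/
noncomputable def vh {k : Type} [CommRing k] (t f : k) : Polynomial (Polynomial k) →+* k :=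
  (Polynomial.evalRingHom f).comp (Polynomial.mapRingHom (Polynomial.evalRingHom t))

theorem vh_apply {k : Type} [CommRing k] (t f : k) (A : Polynomial (Polynomial k)) :
    vh t f A = (A.map (Polynomial.evalRingHom t)).eval f := rfl

theorem vh_monomial {k : Type} [CommRing k] (t f : k) (s u : ℕ) (c : k) :
    vh t f (Polynomial.monomial s (Polynomial.monomial u c)) = c * t ^ u * f ^ s := by
  rw [vh_apply, Polynomial.map_monomial, Polynomial.eval_monomial, Polynomial.coe_evalRingHom,
    Polynomial.eval_monomial]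

theorem vh_C {k : Type} [CommRing k] (t f : k) (q : Polynomial k) :
    vh t f (Polynomial.C q) = q.eval t := by
  rw [vh_apply, Polynomial.map_C, Polynomial.eval_C, Polynomial.coe_evalRingHom]

/-- homogenization -/
theorem homog {k R : Type} [Field k] [CommRing R] [Algebra k R] (ev : ℕ → R →ₐ[k] k)
    (a0 aj b0 bi : R) (ha : ∀ l, ev l a0 ≠ 0) (hb : ∀ l, ev l b0 ≠ 0)
    (A : Polynomial (Polynomial k)) :
    ∃ (M N : ℕ) (H : R), ∀ l, ev l H = ev l a0 ^ M * ev l b0 ^ N *
      vh (ev l aj / ev l a0) (ev l bi / ev l b0) A := by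
  have hadd : ∀ A B : Polynomial (Polynomial k),
      (∃ (M N : ℕ) (H : R), ∀ l, ev l H = ev l a0 ^ M * ev l b0 ^ N *
        vh (ev l aj / ev l a0) (ev l bi / ev l b0) A) →
      (∃ (M N : ℕ) (H : R), ∀ l, ev l H = ev l a0 ^ M * ev l b0 ^ N *
        vh (ev l aj / ev l a0) (ev l bi / ev l b0) B) →
      ∃ (M N : ℕ) (H : R), ∀ l, ev l H = ev l a0 ^ M * ev l b0 ^ N *
        vh (ev l aj / ev l a0) (ev l bi / ev l b0) (A + B) := by
    rintro A B ⟨M1, N1, H1, h1⟩ ⟨M2, N2, H2, h2⟩
    refine ⟨M1 + M2, N1 + N2, a0 ^ M2 * b0 ^ N2 * H1 + a0 ^ M1 * b0 ^ N1 * H2, fun l => ?_⟩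
    rw [map_add, map_mul, map_mul, map_mul, map_mul, map_pow, map_pow, map_pow, map_pow, h1, h2,
      map_add]
    ring
  induction A using Polynomial.induction_on' with
  | add p q hp hq => exact hadd p q hp hq
  | monomial s c =>
    induction c using Polynomial.induction_on' with
    | add p q hp hq =>
      rw [map_add]
      exact hadd _ _ hp hq
    | monomial u c =>
      refine ⟨u, s, algebraMap k R c * aj ^ u * bi ^ s, fun l => ?_⟩
      rw [vh_monomial, map_mul, map_mul, map_pow, map_pow, AlgHom.commutes, div_pow, div_pow]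
      have h1 := pow_ne_zero u (ha l)
      have h2 := pow_ne_zero s (hb l)
      simp only [Algebra.algebraMap_self, RingHom.id_apply]
      field_simp

theorem pr {T : Tup 4 Qb} {y : Fin 4 → Qb} {n : ℕ} {i j : Fin 4}
    (h0 : ∀ l, (pmap T)^[l] y 0 ≠ 0) (hp : (van T y).IsPrime)
    (A B : Polynomial (Polynomial Qb))
    (h : ∀ l, vh ((pmap T)^[l] y j / (pmap T)^[l] y 0)
        ((pmap T)^[n + l] y i / (pmap T)^[n + l] y 0) A = 0 ∨
      vh ((pmap T)^[l] y j / (pmap T)^[l] y 0)
        ((pmap T)^[n + l] y i / (pmap T)^[n + l] y 0) B = 0) :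
    (∀ l, vh ((pmap T)^[l] y j / (pmap T)^[l] y 0)
        ((pmap T)^[n + l] y i / (pmap T)^[n + l] y 0) A = 0) ∨
      ∀ l, vh ((pmap T)^[l] y j / (pmap T)^[l] y 0)
        ((pmap T)^[n + l] y i / (pmap T)^[n + l] y 0) B = 0 := by
  have e1 : ∀ (l : ℕ) (s : Fin 4), (aeval ((pmap T)^[l] y) : Po 4 Qb →ₐ[Qb] Qb) (it T n s) =
      (pmap T)^[n + l] y s := by
    intro l s
    rw [Function.iterate_add_apply, ← pmap_it T n ((pmap T)^[l] y)]
    rfl
  have e2 : ∀ (l : ℕ) (s : Fin 4), (aeval ((pmap T)^[l] y) : Po 4 Qb →ₐ[Qb] Qb) (X s) =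
      (pmap T)^[l] y s := fun l s => aeval_X _ _
  have hh := homog (fun l => (aeval ((pmap T)^[l] y) : Po 4 Qb →ₐ[Qb] Qb)) (X 0) (X j)
    (it T n 0) (it T n i) (fun l => by rw [e2]; exact h0 l) (fun l => by rw [e1]; exact h0 _)
  obtain ⟨MA, NA, HA, hA⟩ := hh A
  obtain ⟨MB, NB, HB, hB⟩ := hh B
  simp only [e1, e2] at hA hB
  have hc : ∀ (l : ℕ) (q : Po 4 Qb), eval ((pmap T)^[l] y) q =
      (aeval ((pmap T)^[l] y) : Po 4 Qb →ₐ[Qb] Qb) q := fun l q => rfl
  have hm : HA * HB ∈ van T y := by
    rw [mem_van]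
    intro l
    rw [hc, map_mul, hA, hB]
    rcases h l with h1 | h1
    · rw [h1]; ring
    · rw [h1]; ring
  have hz : ∀ (l M N : ℕ), (pmap T)^[l] y 0 ^ M * (pmap T)^[n + l] y 0 ^ N ≠ 0 :=
    fun l M N => mul_ne_zero (pow_ne_zero _ (h0 _)) (pow_ne_zero _ (h0 _))
  rcases hp.mem_or_mem hm with h1 | h1
  · left
    intro l
    have h2 := mem_van.1 h1 l
    rw [hc, hA] at h2
    exact (mul_eq_zero.1 h2).resolve_left (hz _ _ _)
  · right
    intro l
    have h2 := mem_van.1 h1 l
    rw [hc, hB] at h2
    exact (mul_eq_zero.1 h2).resolve_left (hz _ _ _)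

theorem nonc {k : Type} [Field k] [IsAlgClosed k] {t f : ℕ → k}
    (hpr : ∀ A B : Polynomial (Polynomial k),
      (∀ l, vh (t l) (f l) A = 0 ∨ vh (t l) (f l) B = 0) →
      (∀ l, vh (t l) (f l) A = 0) ∨ ∀ l, vh (t l) (f l) B = 0)
    (hne : ∀ c : k, ∃ l, t l ≠ c) :
    ∀ (d : ℕ) (q : Polynomial k), q.natDegree = d → q ≠ 0 → ∃ l, q.eval (t l) ≠ 0 := by
  intro d
  induction d using Nat.strong_induction_on with
  | _ d ih =>
    intro q hd hq
    by_cases h : q.degree = 0
    · rw [Polynomial.eq_C_of_degree_eq_zero h] at hq ⊢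
      refine ⟨0, ?_⟩
      rw [Polynomial.eval_C]
      intro h1
      exact hq (by rw [h1, map_zero])
    · obtain ⟨r, hr⟩ := IsAlgClosed.exists_root q h
      obtain ⟨q', hq'⟩ := Polynomial.dvd_iff_isRoot.2 hr
      have hq0 : q' ≠ 0 := by
        rintro rfl
        exact hq (by rw [hq', mul_zero])
      have hdeg : q'.natDegree < d := by
        rw [← hd, hq', Polynomial.natDegree_mul (Polynomial.X_sub_C_ne_zero r) hq0,
          Polynomial.natDegree_X_sub_C]
        omega
      by_contra hc
      push Not at hc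
      have h1 := hpr (Polynomial.C (Polynomial.X - Polynomial.C r)) (Polynomial.C q')
        (fun l => by
          rw [vh_C, vh_C, ← mul_eq_zero, ← Polynomial.eval_mul, ← hq']
          exact hc l)
      rcases h1 with h1 | h1
      · obtain ⟨l, hl⟩ := hne r
        apply hl
        have h2 := h1 l
        rw [vh_C, Polynomial.eval_sub, Polynomial.eval_X, Polynomial.eval_C, sub_eq_zero] at h2
        exact h2
      · obtain ⟨l, hl⟩ := ih _ hdeg q' rfl hq0
        apply hl
        have h2 := h1 l
        rw [vh_C] at h2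
        exact h2

theorem desc {K : IntermediateField ℚ Qb} {t f : ℕ → Qb} {m : ℕ}
    (hpr : ∀ A B : Polynomial (Polynomial Qb),
      (∀ l, vh (t l) (f l) A = 0 ∨ vh (t l) (f l) B = 0) →
      (∀ l, vh (t l) (f l) A = 0) ∨ ∀ l, vh (t l) (f l) B = 0)
    (hnc : ∀ q : Polynomial Qb, q ≠ 0 → ∃ l, q.eval (t l) ≠ 0) :
    ∀ (d : ℕ) (G : Polynomial (Polynomial K)), G.leadingCoeff.natDegree = d → G ≠ 0 →
      (∀ s, (G.coeff s).natDegree ≤ m) →
      (∀ l, vh (t l) (f l) (G.map (Polynomial.mapRingHom (algebraMap K Qb))) = 0) →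
      ∃ G' : Polynomial (Polynomial K), (∀ s, (G'.coeff s).natDegree ≤ m) ∧
        (∀ r : Qb, ∃ s, Polynomial.aeval r (G'.coeff s) ≠ 0) ∧
        ∀ l, vh (t l) (f l) (G'.map (Polynomial.mapRingHom (algebraMap K Qb))) = 0 := by
  intro d
  induction d using Nat.strong_induction_on with
  | _ d ih =>
    intro G hd hG hm hv
    by_cases h : ∀ r : Qb, ∃ s, Polynomial.aeval r (G.coeff s) ≠ 0
    · exact ⟨G, hm, h, hv⟩
    push Not at h
    obtain ⟨r, hr⟩ := h
    have hint : IsIntegral K r := by
      have : Algebra.IsAlgebraic K Qb := Algebra.IsAlgebraic.tower_top (K := ℚ) K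
      exact (Algebra.IsAlgebraic.isAlgebraic r).isIntegral
    have hp0 : minpoly K r ≠ 0 := minpoly.ne_zero hint
    have hdv : Polynomial.C (minpoly K r) ∣ G := by
      rw [Polynomial.C_dvd_iff_dvd_coeff]
      intro s
      exact minpoly.dvd K r (hr s)
    obtain ⟨G3, h3⟩ := hdv
    have hG3 : G3 ≠ 0 := by
      rintro rfl
      exact hG (by rw [h3, mul_zero])
    have hl : G.leadingCoeff = minpoly K r * G3.leadingCoeff := by
      rw [h3, Polynomial.leadingCoeff_mul, Polynomial.leadingCoeff_C]
    have hlt : G3.leadingCoeff.natDegree < d := by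
      rw [← hd, hl, Polynomial.natDegree_mul hp0 (Polynomial.leadingCoeff_ne_zero.2 hG3)]
      have := minpoly.natDegree_pos hint
      omega
    refine ih _ hlt G3 rfl hG3 ?_ ?_
    · intro s
      by_cases hs : G3.coeff s = 0
      · rw [hs]; simp
      · have h4 := hm s
        rw [h3, Polynomial.coeff_C_mul, Polynomial.natDegree_mul hp0 hs] at h4
        omega
    · have h5 := hpr (Polynomial.C ((minpoly K r).map (algebraMap K Qb)))
        (G3.map (Polynomial.mapRingHom (algebraMap K Qb))) (fun l => by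
          have h6 := hv l
          rw [h3, Polynomial.map_mul, Polynomial.map_C, map_mul, mul_eq_zero] at h6
          exact h6)
      rcases h5 with h5 | h5
      · exfalso
        obtain ⟨l, hl⟩ := hnc ((minpoly K r).map (algebraMap K Qb))
          ((Polynomial.map_ne_zero_iff (algebraMap K Qb).injective).2 hp0)
        apply hl
        have h6 := h5 l
        rw [vh_C] at h6
        exact h6
      · exact h5

theorem vh_sum {k : Type} [CommRing k] (t f : k) (G : Polynomial (Polynomial k)) (N M : ℕ)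
    (hN : G.natDegree < N) (hM : ∀ s, (G.coeff s).natDegree < M) :
    vh t f G = ∑ s ∈ Finset.range N, (∑ u ∈ Finset.range M, (G.coeff s).coeff u * t ^ u) *
      f ^ s := by
  rw [vh_apply, Polynomial.eval_eq_sum_range' (lt_of_le_of_lt Polynomial.natDegree_map_le hN)]
  apply Finset.sum_congr rfl
  intro s _
  rw [Polynomial.coeff_map, Polynomial.coe_evalRingHom, Polynomial.eval_eq_sum_range' (hM s)]

theorem pf_RL2 : T_RL2 := by
  intro K T y n m i j G hK h0 hp hne hG hm hv
  set t : ℕ → Qb := fun l => (pmap T)^[l] y j / (pmap T)^[l] y 0 with ht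
  set f : ℕ → Qb := fun l => (pmap T)^[n + l] y i / (pmap T)^[n + l] y 0 with hf
  have hpr : ∀ A B : Polynomial (Polynomial Qb),
      (∀ l, vh (t l) (f l) A = 0 ∨ vh (t l) (f l) B = 0) →
      (∀ l, vh (t l) (f l) A = 0) ∨ ∀ l, vh (t l) (f l) B = 0 := fun A B h => pr h0 hp A B h
  have hnc : ∀ q : Polynomial Qb, q ≠ 0 → ∃ l, q.eval (t l) ≠ 0 := by
    intro q hq
    refine nonc hpr (fun c => ?_) _ q rfl hq
    obtain ⟨l, hl⟩ := hne c
    refine ⟨l, fun h => hl ?_⟩
    rw [← h, ht]
    exact (div_mul_cancel₀ _ (h0 l)).symm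
  -- a nonzero relation with coefficients in `K`
  obtain ⟨G1, hG1, hm1, hv1⟩ : ∃ G1 : Polynomial (Polynomial K), G1 ≠ 0 ∧
      (∀ s, (G1.coeff s).natDegree ≤ m) ∧
      ∀ l, vh (t l) (f l) (G1.map (Polynomial.mapRingHom (algebraMap K Qb))) = 0 := by
    obtain ⟨s0, hs0⟩ : ∃ s, G.coeff s ≠ 0 := by
      by_contra hc
      push Not at hc
      exact hG (Polynomial.ext fun s => by rw [hc s, Polynomial.coeff_zero])
    obtain ⟨u0, hu0⟩ : ∃ u, (G.coeff s0).coeff u ≠ 0 := by
      by_contra hc
      push Not at hc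
      exact hs0 (Polynomial.ext fun s => by rw [hc s, Polynomial.coeff_zero])
    obtain ⟨lam, hlam⟩ : ∃ lam : Module.Dual K Qb, lam ((G.coeff s0).coeff u0) ≠ 0 := by
      by_contra hc
      push Not at hc
      exact hu0 ((Module.forall_dual_apply_eq_zero_iff K _).1 hc)
    let c : ℕ → Polynomial K := fun s =>
      ∑ u ∈ Finset.range (m + 1), Polynomial.monomial u (lam ((G.coeff s).coeff u))
    let G1 : Polynomial (Polynomial K) :=
      ∑ s ∈ Finset.range (G.natDegree + 1), Polynomial.monomial s (c s)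
    have hc : ∀ s u, (c s).coeff u = lam ((G.coeff s).coeff u) := by
      intro s u
      simp only [c]
      rw [Polynomial.finsetSum_coeff]
      simp only [Polynomial.coeff_monomial]
      rw [Finset.sum_ite_eq' (Finset.range (m + 1)) u]
      split_ifs with h
      · rfl
      · rw [Polynomial.coeff_eq_zero_of_natDegree_lt, map_zero]
        have h1 := hm s
        rw [Finset.mem_range] at h
        omega
    have hg : ∀ s, G1.coeff s = c s := by
      intro s
      simp only [G1]
      rw [Polynomial.finsetSum_coeff]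
      simp only [Polynomial.coeff_monomial]
      rw [Finset.sum_ite_eq' (Finset.range (G.natDegree + 1)) s]
      split_ifs with h
      · rfl
      · ext u
        rw [hc, Polynomial.coeff_eq_zero_of_natDegree_lt (p := G)]
        · simp
        · rw [Finset.mem_range] at h
          omega
    have hdc : ∀ s, (c s).natDegree ≤ m := by
      intro s
      rw [Polynomial.natDegree_le_iff_coeff_eq_zero]
      intro u hu
      rw [hc, Polynomial.coeff_eq_zero_of_natDegree_lt (lt_of_le_of_lt (hm s) hu), map_zero]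
    have hd1 : G1.natDegree ≤ G.natDegree := by
      rw [Polynomial.natDegree_le_iff_coeff_eq_zero]
      intro s hs
      rw [hg]
      ext u
      rw [hc, Polynomial.coeff_eq_zero_of_natDegree_lt hs]
      simp
    refine ⟨G1, ?_, fun s => by rw [hg]; exact hdc s, fun l => ?_⟩
    · intro h
      apply hlam
      rw [← hc, ← hg, h]
      simp
    · obtain ⟨t', ht'⟩ : ∃ t' : K, (algebraMap K Qb) t' = t l :=
        ⟨⟨t l, K.div_mem (hK l j) (hK l 0)⟩, rfl⟩
      obtain ⟨f', hf'⟩ : ∃ f' : K, (algebraMap K Qb) f' = f l :=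
        ⟨⟨f l, K.div_mem (hK (n + l) i) (hK (n + l) 0)⟩, rfl⟩
      have h1 : vh (t l) (f l) (G1.map (Polynomial.mapRingHom (algebraMap K Qb))) =
          algebraMap K Qb (vh t' f' G1) := by
        rw [vh_sum (t l) (f l) _ (G.natDegree + 1) (m + 1), vh_sum t' f' G1 (G.natDegree + 1)
          (m + 1), map_sum]
        · apply Finset.sum_congr rfl
          intro s _
          rw [map_mul, map_pow, map_sum, hf']
          congr 1
          apply Finset.sum_congr rfl
          intro u _
          rw [map_mul, map_pow, ht', Polynomial.coeff_map, Polynomial.coe_mapRingHom,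
            Polynomial.coeff_map]
        · omega
        · intro s
          rw [hg]
          have := hdc s
          omega
        · have := Polynomial.natDegree_map_le (f := Polynomial.mapRingHom (algebraMap K Qb))
            (p := G1)
          omega
        · intro s
          rw [Polynomial.coeff_map, Polynomial.coe_mapRingHom, hg]
          have h2 := Polynomial.natDegree_map_le (f := algebraMap K Qb) (p := c s)
          have h3 := hdc s
          omega
      rw [h1]
      have h2 : vh t' f' G1 = lam (vh (t l) (f l) G) := by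
        rw [vh_sum (t l) (f l) G (G.natDegree + 1) (m + 1) (by omega)
          (fun s => by have := hm s; omega), vh_sum t' f' G1 (G.natDegree + 1)
          (m + 1) (by omega) (fun s => by rw [hg]; have := hdc s; omega), map_sum]
        apply Finset.sum_congr rfl
        intro s _
        rw [Finset.sum_mul, Finset.sum_mul, map_sum]
        apply Finset.sum_congr rfl
        intro u _
        rw [hg, hc, ← ht', ← hf', ← map_pow, ← map_pow]
        have h3 : (G.coeff s).coeff u * (algebraMap K Qb) (t' ^ u) *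
            (algebraMap K Qb) (f' ^ s) = (t' ^ u * f' ^ s) • (G.coeff s).coeff u := by
          rw [Algebra.smul_def, map_mul]
          ring
        rw [h3, map_smul, smul_eq_mul]
        ring
      rw [h2, vh_apply, hv l, map_zero, map_zero]
  obtain ⟨G', h1, h2, h3⟩ := desc (m := m) hpr hnc _ G1 rfl hG1 hm1 hv1
  refine ⟨G'.map (Polynomial.mapRingHom (algebraMap K Qb)), ?_, ?_, ?_, ?_⟩
  · intro s u
    rw [Polynomial.coeff_map, Polynomial.coe_mapRingHom, Polynomial.coeff_map]
    exact ((G'.coeff s).coeff u).2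
  · intro s
    rw [Polynomial.coeff_map, Polynomial.coe_mapRingHom]
    exact Polynomial.natDegree_map_le.trans (h1 s)
  · intro r
    obtain ⟨s, hs⟩ := h2 r
    refine ⟨s, ?_⟩
    rw [Polynomial.coeff_map, Polynomial.coe_mapRingHom, Polynomial.eval_map_algebraMap]
    exact hs
  · intro l
    exact h3 l

end Pool.Agent.H74.TD
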